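import Pool.Agent.H624.DM.Base

/-!
# MP_856180_lc : the dominating number at a singular cardinal as a cofinality

Let `μ` be a singular cardinal of countable cofinality.  Then `𝔡_μ` is the least size of a family of
functions from `μ` to `ℕ` that dominates every such function everywhere; it is monotone in `μ`, and
its cofinality is larger than `μ`.
-/

open Cardinal Set

noncomputable section

namespace Pool.Agent.Results.MP_856180_lc.CofinalityOfD

universe u

/-- The dominating number at `μ`: the least size of a family `D` of functions from `μ` to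
`κ = cf(μ)` such that for every `g` there is `f ∈ D` with `f x ≤ g x` for fewer than `μ` points
`x` only. -/
def dominatingNumber (μ : Cardinal.{u}) : Cardinal.{u} :=
  sInf {c | ∃ D : Set (μ.ord.ToType → μ.ord.cof.ord.ToType), #D = c ∧
    ∀ g : μ.ord.ToType → μ.ord.cof.ord.ToType, ∃ f ∈ D, #{x // f x ≤ g x} < μ}

/-- The least size of a family of functions from `μ` to `ℕ` such that every function from `μ` to `ℕ`
is everywhere at most some member. -/
def everywhereNumber (μ : Cardinal.{u}) : Cardinal.{u} :=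
  sInf {c | ∃ D : Set (μ.ord.ToType → ℕ), #D = c ∧
    ∀ g : μ.ord.ToType → ℕ, ∃ f ∈ D, ∀ x, g x ≤ f x}

theorem ev_le {μ : Cardinal.{u}} {α : Type u} (h : #α = μ) (D : Set (α → ℕ))
    (hD : ∀ g : α → ℕ, ∃ f ∈ D, ∀ x, g x ≤ f x) : everywhereNumber μ ≤ #D := by
  obtain ⟨a⟩ : Nonempty (μ.ord.ToType ≃ α) := by
    rw [← Cardinal.eq, mk_ord_toType, h]
  refine (csInf_le' (a := #((fun f : α → ℕ => fun x => f (a x)) '' D)) ?_).trans mk_image_le
  refine ⟨_, rfl, fun g => ?_⟩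
  obtain ⟨f, hf, hfg⟩ := hD (fun x => g (a.symm x))
  exact ⟨_, ⟨f, hf, rfl⟩, fun x => by simpa using hfg (a x)⟩

theorem ev_spec (μ : Cardinal.{u}) : ∃ D : Set (μ.ord.ToType → ℕ), #D = everywhereNumber μ ∧
    ∀ g : μ.ord.ToType → ℕ, ∃ f ∈ D, ∀ x, g x ≤ f x :=
  csInf_mem (s := {c | ∃ D : Set (μ.ord.ToType → ℕ), #D = c ∧
    ∀ g : μ.ord.ToType → ℕ, ∃ f ∈ D, ∀ x, g x ≤ f x})
    ⟨_, Set.univ, rfl, fun g => ⟨g, mem_univ _, fun _ => le_rfl⟩⟩

theorem ev_mono {lam μ : Cardinal.{u}} (h : lam ≤ μ) : everywhereNumber lam ≤ everywhereNumber μ := by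
  obtain ⟨D, hD1, hD2⟩ := ev_spec μ
  obtain ⟨e⟩ := Cardinal.le_def _ _ |>.1
    (show #(lam.ord.ToType) ≤ #(μ.ord.ToType) by rwa [mk_ord_toType, mk_ord_toType])
  rw [← hD1]
  refine (ev_le (mk_ord_toType lam) ((fun f : μ.ord.ToType → ℕ => fun x => f (e x)) '' D)
    fun g => ?_).trans mk_image_le
  obtain ⟨f, hf, hfg⟩ := hD2 (Function.extend e g 0)
  refine ⟨_, ⟨f, hf, rfl⟩, fun x => ?_⟩
  have := hfg (e x)
  rwa [e.injective.extend_apply] at this

theorem dn_ev {μ : Cardinal.{u}} (hμ : ℵ₀ < μ) (hcof : μ.ord.cof = ℵ₀) :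
    dominatingNumber μ = everywhereNumber μ := by
  have e1 : dominatingNumber μ = H624DM.dnNat μ := H624DM.dn_eq hcof
  rw [e1]
  refine le_antisymm ?_ ?_
  · obtain ⟨D, hD1, hD2⟩ := ev_spec μ
    obtain ⟨a⟩ : Nonempty (μ.out ≃ μ.ord.ToType) := by
      rw [← Cardinal.eq, mk_ord_toType, mk_out]
    rw [← hD1]
    refine (H624DM.dn_le hμ.le ((fun f : μ.ord.ToType → ℕ => fun x => f (a x)) '' D)
      fun g => ?_).trans mk_image_le
    obtain ⟨f, hf, hfg⟩ := hD2 (fun x => g (a.symm x))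
    exact ⟨_, ⟨f, hf, rfl⟩, fun x => by simpa using hfg (a x)⟩
  · obtain ⟨D, hD1, hD2, hD3⟩ := H624DM.dn_min hcof hμ
    rw [← hD1]
    exact ev_le (mk_out μ) D hD2

/-- Let `μ` be an uncountable cardinal of countable cofinality. (1) `𝔡_μ` is the least size of
a family that dominates all functions from `μ` to `ℕ` everywhere. (2) `𝔡_λ ≤ 𝔡_μ` for all uncountable
`λ ≤ μ` of countable cofinality. (3) The cofinality of `𝔡_μ` is larger than `μ`. -/
theorem result (μ : Cardinal.{u}) (hμ : ℵ₀ < μ) (hcof : μ.ord.cof = ℵ₀) :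
    dominatingNumber μ = everywhereNumber μ ∧
    (∀ lam : Cardinal.{u}, ℵ₀ < lam → lam.ord.cof = ℵ₀ → lam ≤ μ →
      dominatingNumber lam ≤ dominatingNumber μ) ∧
    μ < (dominatingNumber μ).ord.cof := by
  refine ⟨dn_ev hμ hcof, fun lam h1 h2 h3 => ?_, ?_⟩
  · rw [dn_ev h1 h2, dn_ev hμ hcof]
    exact ev_mono h3
  · have e1 : dominatingNumber μ = H624DM.dnNat μ := H624DM.dn_eq hcof
    rw [e1]
    exact H624DM.dn_cof hcof hμ

end Pool.Agent.Results.MP_856180_lc.CofinalityOfD
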