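import Pool.Agent.H624.DM.Below

/-!
# MP_856180_lc : where can a singular `μ` of countable cofinality with `𝔡_μ < 2 ^ μ` lie?

Let `μ` be a singular cardinal of countable cofinality.  It is shown in ZFC that `𝔡_μ = 2 ^ μ`
unless `μ < 𝔟`, or `μ < non(𝒩)`, or there are cardinals `ν < κ ≤ μ` such that `κ = ℵ_κ` is a fixed
point of the aleph function and `μ < cf([ν]^ω)`.  The tool is a family of at most `μ` countable
subsets of `μ` which meets every set of more than `ρ` points in an infinite set: its existence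
implies `2 ^ μ ≤ 𝔡_μ * 2 ^ ρ` as soon as there are `2 ^ ℵ₀` functions from `μ` to `ω` of which
every function dominates only finitely many everywhere, and such functions exist if `𝔟` and
`non(𝒩)` are at most `μ`.
-/

open Cardinal Set MeasureTheory Filter

noncomputable section

namespace Pool.Agent.Results.MP_856180_lc.Restrictions

/-- The dominating number at `μ`: the least size of a family `D` of functions from `μ` to
`κ = cf(μ)` such that for every `g` there is `f ∈ D` with `f x ≤ g x` for fewer than `μ` points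
`x` only. -/
def dominatingNumber (μ : Cardinal.{0}) : Cardinal.{0} :=
  sInf {c | ∃ D : Set (μ.ord.ToType → μ.ord.cof.ord.ToType), #D = c ∧
    ∀ g : μ.ord.ToType → μ.ord.cof.ord.ToType, ∃ f ∈ D, #{x // f x ≤ g x} < μ}

/-- `𝔟`: the least size of a family of functions `ℕ → ℕ` which is not dominated, up to finitely many
values, by a single function. -/
def boundingNumber : Cardinal.{0} :=
  sInf {c | ∃ B : Set (ℕ → ℕ), #B = c ∧ ¬ ∃ h : ℕ → ℕ, ∀ b ∈ B, ∀ᶠ k in atTop, b k ≤ h k}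

/-- `non(𝒩)`: the least size of a subset of `[0,1]` which is not a Lebesgue null set. -/
def uniformityOfNull : Cardinal.{0} :=
  sInf {c | ∃ Y : Set unitInterval, #Y = c ∧ volume Y ≠ 0}

/-- `cf([ν]^ω, ⊆)`: the least size of a family of countable subsets of `ν` such that every countable
subset of `ν` is contained in a member. -/
def countableCofinality (ν : Cardinal.{0}) : Cardinal.{0} :=
  sInf {c | ∃ C : Set (Set ν.ord.ToType), #C = c ∧ (∀ A ∈ C, A.Countable) ∧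
    ∀ B : Set ν.ord.ToType, B.Countable → ∃ A ∈ C, B ⊆ A}

/-- There is a family of at most `μ` countable subsets of `μ` such that every `X ⊆ μ` with more
than `ρ` elements has an infinite intersection with a member of the family. -/
def HittingFamily (μ ρ : Cardinal.{0}) : Prop :=
  ∃ C : Set (Set μ.ord.ToType), #C ≤ μ ∧ (∀ A ∈ C, A.Countable) ∧
    ∀ X : Set μ.ord.ToType, ρ < #X → ∃ A ∈ C, (X ∩ A).Infinite

/-- There are `2 ^ ℵ₀` functions from `μ` to `ℕ` such that every function from `μ` to `ℕ` is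
everywhere at least as large as only finitely many of them. -/
def ContinuumFamily (μ : Cardinal.{0}) : Prop :=
  ∃ (I : Type) (G : I → μ.ord.ToType → ℕ), #I = continuum ∧
    ∀ f : μ.ord.ToType → ℕ, {i | ∀ a, G i a ≤ f a}.Finite

theorem sep {μ : Cardinal.{0}} (hμ : ℵ₀ < μ) (hb : boundingNumber ≤ μ)
    (hn : uniformityOfNull ≤ μ) : H624DN.Sep μ := by
  obtain ⟨B, hB1, hB2⟩ : ∃ B : Set (ℕ → ℕ), #B = boundingNumber ∧
      ¬ ∃ h : ℕ → ℕ, ∀ b ∈ B, ∀ᶠ k in atTop, b k ≤ h k := by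
    refine csInf_mem (s := {c | ∃ B : Set (ℕ → ℕ), #B = c ∧
      ¬ ∃ h : ℕ → ℕ, ∀ b ∈ B, ∀ᶠ k in atTop, b k ≤ h k}) ⟨_, Set.univ, rfl, ?_⟩
    rintro ⟨h, hh⟩
    obtain ⟨k, hk⟩ := (hh (fun k => h k + 1) (mem_univ _)).exists
    omega
  obtain ⟨Y, hY1, hY2⟩ : ∃ Y : Set unitInterval, #Y = uniformityOfNull ∧ volume Y ≠ 0 :=
    csInf_mem (s := {c | ∃ Y : Set unitInterval, #Y = c ∧ volume Y ≠ 0})
      ⟨_, Set.univ, rfl, by simp⟩
  exact H624DN.sep_of hμ.le B (hB1.trans_le hb) hB2 Y (hY1.trans_le hn) hY2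

theorem sep_of_family {μ : Cardinal.{0}} (h : ContinuumFamily μ) : H624DN.Sep μ := by
  obtain ⟨I, G, hI, hG⟩ := h
  obtain ⟨e⟩ : Nonempty (Set ℕ ≃ I) := by
    rw [← Cardinal.eq, hI]
    simp
  refine ⟨μ.ord.ToType, fun T a => G (e T) a, (mk_ord_toType μ).le, fun F => ?_⟩
  exact (hG F).preimage (f := e) e.injective.injOn

theorem family_of_sep {μ : Cardinal.{0}} (h : H624DN.Sep μ) : ContinuumFamily μ := by
  classical
  obtain ⟨J, G, hJ, hG⟩ := h
  obtain ⟨e⟩ := Cardinal.le_def _ _ |>.1 (show #J ≤ #(μ.ord.ToType) by rwa [mk_ord_toType])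
  refine ⟨Set ℕ, fun T => Function.extend e (G T) 0, by simp, fun f => ?_⟩
  refine (hG (fun j => f (e j))).subset fun T hT j => ?_
  have h1 : Function.extend e (G T) 0 (e j) ≤ f (e j) := hT (e j)
  rwa [e.injective.extend_apply] at h1

theorem hit_of_cof {μ ν : Cardinal.{0}} (h : countableCofinality ν ≤ μ) :
    H624DM.Hit μ ν.ord.ToType ℵ₀ := by
  obtain ⟨C, hC1, hC2, hC3⟩ : ∃ C : Set (Set ν.ord.ToType), #C = countableCofinality ν ∧
      (∀ A ∈ C, A.Countable) ∧ ∀ B : Set ν.ord.ToType, B.Countable → ∃ A ∈ C, B ⊆ A :=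
    csInf_mem (s := {c | ∃ C : Set (Set ν.ord.ToType), #C = c ∧ (∀ A ∈ C, A.Countable) ∧
      ∀ B : Set ν.ord.ToType, B.Countable → ∃ A ∈ C, B ⊆ A})
      ⟨_, {A | A.Countable}, rfl, fun A hA => hA, fun B hB => ⟨B, hB, Subset.rfl⟩⟩
  refine ⟨C, hC1.trans_le h, hC2, fun X hX => ?_⟩
  have hX' : X.Infinite := by
    rw [← Set.infinite_coe_iff]
    exact Cardinal.infinite_iff.2 hX
  let f := Set.Infinite.natEmbedding X hX'
  obtain ⟨A, hA, hfA⟩ := hC3 (range fun n => (f n : ν.ord.ToType)) (countable_range _)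
  refine ⟨A, hA, Set.Infinite.mono (s := range fun n => (f n : ν.ord.ToType)) ?_ ?_⟩
  · rintro _ ⟨n, rfl⟩
    exact ⟨(f n).2, hfA ⟨n, rfl⟩⟩
  · exact Set.infinite_range_of_injective (fun a b hab => f.injective (Subtype.ext hab))

/-- Let `μ` be an uncountable cardinal of countable cofinality.

(1) If `𝔡_μ < 2 ^ μ` then `μ < 𝔟`, or `μ < non(𝒩)`, or there are `ν < κ ≤ μ` with `κ = ℵ_κ` and
`μ < cf([ν]^ω)`.

(2) If `𝔟 ≤ μ` and `non(𝒩) ≤ μ` then `ContinuumFamily μ`.

Assume `ContinuumFamily μ`. (3) `2 ^ λ ≤ 𝔡_μ` for every infinite `λ ≤ μ` such that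
`cf([ν]^ω) ≤ μ` whenever `ν < κ ≤ λ` and `κ = ℵ_κ`. (4) If there is a hitting family for the sets
with more than `ρ` elements then `2 ^ μ ≤ 𝔡_μ * 2 ^ ρ`. -/
theorem result (μ : Cardinal.{0}) (hμ : ℵ₀ < μ) (hcof : μ.ord.cof = ℵ₀) :
    (dominatingNumber μ < 2 ^ μ → μ < boundingNumber ∨ μ < uniformityOfNull ∨
      ∃ κ ν : Cardinal.{0}, ν < κ ∧ κ ≤ μ ∧ κ = ℵ_ κ.ord ∧ μ < countableCofinality ν) ∧
    (boundingNumber ≤ μ → uniformityOfNull ≤ μ → ContinuumFamily μ) ∧
    (ContinuumFamily μ →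
      (∀ lam : Cardinal.{0}, ℵ₀ ≤ lam → lam ≤ μ →
        (∀ κ ≤ lam, κ = ℵ_ κ.ord → ∀ ν < κ, countableCofinality ν ≤ μ) →
          2 ^ lam ≤ dominatingNumber μ) ∧
      (∀ ρ : Cardinal.{0}, HittingFamily μ ρ → 2 ^ μ ≤ dominatingNumber μ * 2 ^ ρ)) := by
  have e1 : dominatingNumber μ = H624DM.dnNat μ := H624DM.dn_eq hcof
  rw [e1]
  refine ⟨fun hlt => ?_, fun hb hn => family_of_sep (sep hμ hb hn),
    fun hF => ⟨fun lam h1 h2 h3 => ?_, fun ρ hH => ?_⟩⟩
  · by_contra hcon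
    simp only [not_or, not_lt, not_exists, not_and] at hcon
    obtain ⟨h1, h2, h3⟩ := hcon
    refine absurd (H624DN.dn_main hcof hμ (sep hμ h1 h2) μ hμ.le le_rfl
      fun κ hκ hfix ν hν => ?_) (not_le.2 hlt)
    exact hit_of_cof (h3 κ ν hν hκ hfix)
  · exact H624DN.dn_main hcof hμ (sep_of_family hF) lam h1 h2
      fun κ hκ hfix ν hν => hit_of_cof (h3 κ hκ hfix ν hν)
  · refine H624DN.dn_hit hcof hμ (sep_of_family hF) ρ ?_
    obtain ⟨e⟩ : Nonempty (μ.out ≃ μ.ord.ToType) := by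
      rw [← Cardinal.eq, mk_ord_toType, mk_out]
    obtain ⟨C, h1, h2, h3⟩ := hH
    exact H624DM.hit_of_inj e.toEmbedding
      ⟨C, h1, h2, fun X hX => h3 X (Order.succ_le_iff.1 hX)⟩

end Pool.Agent.Results.MP_856180_lc.Restrictions
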